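import Pool.Agent.Lib.MP_155633_al.Main

/-!
For an infinite set, generous transitivity on `t`-subsets forces every even permutation of every
`(2t-1)`-subset to be induced, for every `t` (no exception at `t = 3` or `t = 5`).
-/

set_option autoImplicit false

namespace Pool.Agent.Results.MP_155633_al.AlternatingInduced

theorem result (X : Type*) [Infinite X] [DecidableEq X] (G : Subgroup (Equiv.Perm X)) (t : ℕ)
    (ht : 1 ≤ t)
    (hG : ∀ A B : Finset X, A.card = t → B.card = t →
      ∃ g ∈ G, A.image g = B ∧ B.image g = A)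
    (Y : Finset X) (hY : Y.card = 2 * t - 1) (σ : Equiv.Perm Y) (hσ : σ ∈ alternatingGroup Y) :
    ∃ g ∈ G, ∀ y : Y, g y = σ y := by
  refine Pool.Agent.Lib.MP_155633_al.alt_induced ht (fun A B hA hB => ?_) Y hY σ hσ
  obtain ⟨g, hg, h1, h2⟩ := hG A B hA hB
  exact ⟨g, hg, fun a ha => h1 ▸ Finset.mem_image_of_mem g ha,
    fun b hb => h2 ▸ Finset.mem_image_of_mem g hb⟩

end Pool.Agent.Results.MP_155633_al.AlternatingInduced
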