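import Pool.Agent.Lib.MP_155633_al.AmMain

/-!
The question of Neumann has a positive answer, for every `t`, when the set carries an invariant
mean on the bounded functions of finite support.
-/

set_option autoImplicit false

namespace Pool.Agent.Results.MP_155633_al.Amenable

/-- `f` is bounded and invariant under the pointwise stabiliser in `G` of some finite set. -/
def Tame {X : Type*} (G : Subgroup (Equiv.Perm X)) (f : X → ℝ) : Prop :=
  (∃ C : ℝ, ∀ x, |f x| ≤ C) ∧
    ∃ A : Finset X, ∀ g ∈ G, (∀ a ∈ A, g a = a) → ∀ x, f (g x) = f x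

theorem result (X : Type*) [Infinite X] [DecidableEq X] (G : Subgroup (Equiv.Perm X)) (t : ℕ)
    (ht : 1 ≤ t)
    (hG : ∀ A B : Finset X, A.card = t → B.card = t →
      ∃ g ∈ G, A.image g = B ∧ B.image g = A)
    (m : (X → ℝ) → ℝ)
    (hadd : ∀ f f', Tame G f → Tame G f' → m (f + f') = m f + m f')
    (hsmul : ∀ (r : ℝ) f, Tame G f → m (r • f) = r * m f)
    (hpos : ∀ f, Tame G f → (∀ x, 0 ≤ f x) → 0 ≤ m f)
    (hone : m (fun _ => 1) = 1)
    (hinv : ∀ f, Tame G f → ∀ g ∈ G, m (fun x => f (g x)) = m f)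
    (z z' : Fin (2 * t - 1) → X) (hz : Function.Injective z) (hz' : Function.Injective z') :
    ∃ g ∈ G, ∀ j, g (z j) = z' j := by
  obtain ⟨s, rfl⟩ : ∃ s, t = s + 1 := ⟨t - 1, by omega⟩
  obtain ⟨M, hM⟩ := Pool.Agent.Lib.MP_155633_al.Amen.exists_mean (G := G) m
    (fun f hf f' hf' => hadd f f' hf hf') hsmul hpos hone hinv
  refine Pool.Agent.Lib.MP_155633_al.Amen.trans_of_mean (fun A B hA hB => ?_) hM z z' hz hz'
  obtain ⟨g, hg, h1, h2⟩ := hG A B hA hB
  exact ⟨g, hg, fun a ha => h1 ▸ Finset.mem_image_of_mem g ha,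
    fun b hb => h2 ▸ Finset.mem_image_of_mem g hb⟩

end Pool.Agent.Results.MP_155633_al.Amenable
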