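import Pool.Agent.Lib.MP_155633_al.Sop

/-!
Generous transitivity on `t`-subsets of an infinite set gives `(2t-1)`-transitivity for groups
without a strong order property: for some `n`, every binary relation of finite support with an
infinite chain has a closed walk with at most `n + 1` steps.
-/

set_option autoImplicit false

namespace Pool.Agent.Results.MP_155633_al.NoStrongOrder

theorem result (X : Type*) [Infinite X] [DecidableEq X] (G : Subgroup (Equiv.Perm X)) (t : ℕ)
    (ht : 1 ≤ t)
    (hG : ∀ A B : Finset X, A.card = t → B.card = t →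
      ∃ g ∈ G, A.image g = B ∧ B.image g = A)
    (n : ℕ)
    (hn : ∀ (A : Finset X) (R : X → X → Prop),
      (∀ g ∈ G, (∀ a ∈ A, g a = a) → ∀ x y, R x y → R (g x) (g y)) →
      (∃ x : ℕ → X, ∀ i j, i < j → R (x i) (x j)) →
      ∃ r ≤ n, ∃ y : ℕ → X, (∀ i < r, R (y i) (y (i + 1))) ∧ R (y r) (y 0))
    (x y : Fin (2 * t - 1) → X) (hx : Function.Injective x) (hy : Function.Injective y) :
    ∃ g ∈ G, ∀ i, g (x i) = y i := by
  refine Pool.Agent.Lib.MP_155633_al.trans_of_nsop ht (fun A B hA hB => ?_) n hn x y hx hy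
  obtain ⟨g, hg, h1, h2⟩ := hG A B hA hB
  exact ⟨g, hg, fun a ha => h1 ▸ Finset.mem_image_of_mem g ha,
    fun b hb => h2 ▸ Finset.mem_image_of_mem g hb⟩

end Pool.Agent.Results.MP_155633_al.NoStrongOrder
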