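import Pool.Agent.FS.PeriodicStabiliser.Main

/-!
The question of Neumann has a positive answer, for every `t`, when the pointwise stabiliser of
some set of at most `2t-2` points is a periodic group.
-/

set_option autoImplicit false

namespace Pool.Agent.Results.MP_155633_al.PeriodicStabiliser

theorem result (X : Type*) [Infinite X] [DecidableEq X] (G : Subgroup (Equiv.Perm X)) (t : ℕ)
    (ht : 1 ≤ t)
    (hG : ∀ A B : Finset X, A.card = t → B.card = t →
      ∃ g ∈ G, A.image g = B ∧ B.image g = A)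
    (F : Finset X) (hF : F.card ≤ 2 * t - 2)
    (hper : ∀ g ∈ G, (∀ a ∈ F, g a = a) → ∃ n : ℕ, 0 < n ∧ g ^ n = 1)
    (z z' : Fin (2 * t - 1) → X) (hz : Function.Injective z) (hz' : Function.Injective z') :
    ∃ g ∈ G, ∀ j, g (z j) = z' j := by
  obtain ⟨s, rfl⟩ : ∃ s, t = s + 1 := ⟨t - 1, by omega⟩
  refine Pool.Agent.FS.PeriodicStabiliser.trans_of_periodic (s := s) (fun A B hA hB => ?_) F
    (by omega) (fun g hg h => isOfFinOrder_iff_pow_eq_one.2 (hper g hg h)) z z' hz hz'
  obtain ⟨g, hg, h1, h2⟩ := hG A B hA hB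
  exact ⟨g, hg, fun a ha => h1 ▸ Finset.mem_image_of_mem g ha,
    fun b hb => h2 ▸ Finset.mem_image_of_mem g hb⟩

end Pool.Agent.Results.MP_155633_al.PeriodicStabiliser
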